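set_option autoImplicit false

namespace Pool.Agent.H.MP_a14af5_co

noncomputable def rp (l : List Nat) : Nat → List Nat → List Nat :=
  List.rec (motive := fun _ => Nat → List Nat → List Nat) (fun _ out => out)
    (fun x _ ih a out => ih (Nat.add a x) (Nat.add a x :: out)) l

noncomputable def it (k : Nat) (l : List Nat) : List Nat :=
  Nat.rec (motive := fun _ => List Nat) l (fun _ r => rp (rp r 0 []) 0 []) k

noncomputable def tr (n : Nat) : Nat :=
  ((List.range n).map fun b =>
    (it 13 ((List.range n).map fun a => if a = b then 1 else 0)).getD b 0).sum

def tab : List Nat := [1,
  271443,
  1385407029,
  874569107071,
  154424192534978,
  11590981980134136,
  471109005712845073,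
  12073893516637797647,
  216054227528911051598,
  2899588931289770319928,
  30747252105854418602807,
  267900870986039891665533,
  1976658261038065237688965,
  12646583259151935165028659,
  71505544338055517905383002,
  362852466483982941465664294,
  1673644967862052696066138463,
  7091534775916075003484209649,
  27850704697432295249191815709,
  102151810477267331847970867095,
  352204279293140920190902505756,
  1147947037059968833062938517298,
  3554264799119307289506871036659,
  10498698066409011044245276217901,
  29697044023575712453995735900724,
  80710316446302004065351530568318,
  211382155607852560741336416052863,
  534907644994676627454203692327477,
  1310960487246736777485104974336647]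

theorem val : (List.range 29).map (fun s => tr (s + 1)) = tab := by decide +kernel

def num : List Int := [22903271079605908992000000,
  -193655046254166360864000000,
  5538164229477402901489440000,
  17003847111356689089733584000,
  38640528544457571935292212400,
  120626190972553059397803850560,
  287137053559460504041772306904,
  498589600868502291064999129320,
  722589820154798132800102112091,
  910175559026999213557926317000,
  980043216904728583759937393180,
  899321041831723525253793153600,
  710964252495489207549589352370,
  487354321260776552444015918400,
  289365582365488774861349443740,
  148390775761467757199289749400,
  65588755744399188187113158235,
  24910346735638729938169342200,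
  8077740585772903614175403160,
  2214091259178613774111152000,
  506507612847433611605231040,
  95323013842176169739289600,
  14519098597064981797662720,
  1754884805651741878732800,
  163979737580072320058880,
  11404343491836246282240,
  555237894683185975296,
  16879398059877498880,
  241134257998249984]

def den : Nat := 22903271079605908992000000

end Pool.Agent.H.MP_a14af5_co
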