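import Mathlib
import Pool.Agent.H.MP_a14af5_co.K
import Pool.Agent.Lib.helper2.OrdPoly

set_option autoImplicit false

namespace Pool.Agent.H.MP_a14af5_co

open Finset Pool.Agent.Lib.helper2.OrdPoly

theorem rp_eq (l : List ℕ) (a : ℕ) (out : List ℕ) : rp l a out =
    ((List.range l.length).map fun j => a + (l.take (l.length - j)).sum) ++ out := by
  induction l generalizing a out with
  | nil => rfl
  | cons x l ih =>
    rw [show rp (x :: l) a out = rp l (a + x) ((a + x) :: out) from rfl, ih, List.length_cons,
      List.range_succ, List.map_append, List.append_assoc]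
    refine congrArg₂ _ (List.map_congr_left fun j hj => ?_) (by simp)
    rw [Nat.succ_sub (List.mem_range.1 hj).le]
    simp [add_assoc]

theorem sum_map_range (n : ℕ) (v : ℕ → ℕ) : ((List.range n).map v).sum = ∑ i ∈ range n, v i := by
  induction n with
  | zero => rfl
  | succ n ih => rw [List.range_succ, List.map_append, List.sum_append, ih, sum_range_succ]; simp

theorem rp_map (n : ℕ) (v : ℕ → ℕ) : rp ((List.range n).map v) 0 [] =
    (List.range n).map fun j => ∑ i ∈ range (n - j), v i := by
  rw [rp_eq, List.append_nil, List.length_map, List.length_range]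
  refine List.map_congr_left fun j _ => ?_
  rw [zero_add, ← List.map_take, List.take_range, min_eq_left (Nat.sub_le _ _), sum_map_range]

theorem two (n a : ℕ) (v : ℕ → ℕ) : ∑ d ∈ range (n - a), ∑ c ∈ range (n - d), v c =
    ∑ c ∈ range n, (n - max a c) * v c := by
  rw [sum_comm' (t' := range n) (s' := fun c => range (n - max a c))]
  · simp
  · intro d c
    simp only [mem_range]
    omega

theorem it_eq (n b k : ℕ) : it k ((List.range n).map fun a => if a = b then 1 else 0) =
    (List.range n).map (g (fun a c => n - max a c) n b k) := by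
  induction k with
  | zero => rfl
  | succ k ih =>
    rw [show ∀ l, it (k + 1) l = rp (rp (it k l) 0 []) 0 [] from fun _ => rfl, ih, rp_map, rp_map]
    exact List.map_congr_left fun a _ => two n a _

theorem tr_eq (n : ℕ) : ∑ v ∈ Fintype.piFinset fun _ : Fin 13 => range n,
    ∏ i, (n - max (v i) (v (finRotate _ i))) = tr n := by
  rw [cyc (fun a c => n - max a c) n 12, tr, sum_map_range]
  refine sum_congr rfl fun b hb => ?_
  rw [it_eq]
  simp [List.getD_eq_getElem?_getD, mem_range.1 hb]

abbrev I : Type := Bool ⊕ Fin 13 ⊕ Fin 13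

def r : I → I → Bool
  | .inl false, _ => true
  | _, .inl true => true
  | .inr (.inl i), .inr (.inl j) => i = j
  | .inr (.inr i), .inr (.inr j) => i = j
  | .inr (.inl i), .inr (.inr j) => i = j ∨ i = finRotate _ j
  | _, _ => false

theorem mono (x : I → ℕ) : (∀ a b, r a b → x a ≤ x b) ↔ ∀ i, x (.inl false) ≤ x (.inr (.inl i)) ∧
    x (.inr (.inl i)) ≤ x (.inr (.inr i)) ∧ x (.inr (.inl (finRotate _ i))) ≤ x (.inr (.inr i)) ∧
      x (.inr (.inr i)) ≤ x (.inl true) := by
  refine ⟨fun h i => ⟨h _ _ rfl, h _ _ (by simp [r]), h _ _ (by simp [r]), h _ _ rfl⟩, fun h => ?_⟩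
  rintro ((_ | _) | i | i) ((_ | _) | j | j) hr
  · rfl
  · have := h 0; omega
  · have := h j; omega
  · have := h j; omega
  · simp [r] at hr
  · rfl
  · simp [r] at hr
  · simp [r] at hr
  · simp [r] at hr
  · have := h i; omega
  · rw [of_decide_eq_true hr]
  · rcases of_decide_eq_true hr with rfl | rfl
    · exact (h _).2.1
    · exact (h _).2.2.1
  · simp [r] at hr
  · have := h i; omega
  · simp [r] at hr
  · rw [of_decide_eq_true hr]

theorem card_eq (m : ℕ) : #(A (fun a b => r a b) (range m)) =
    ∑ b ∈ range m, ∑ s ∈ range (b + 1), tr (s + 1) := by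
  have : #((range m).sigma fun b => (range (b + 1)).sigma fun s =>
      (Fintype.piFinset fun _ : Fin 13 => range (s + 1)).sigma fun u =>
        Fintype.piFinset fun i : Fin 13 => range (s + 1 - max (u i) (u (finRotate _ i)))) =
      ∑ b ∈ range m, ∑ s ∈ range (b + 1), tr (s + 1) := by
    simp only [card_sigma, Fintype.card_piFinset, card_range, tr_eq]
  rw [← this]
  refine card_nbij' (fun x => ⟨x (.inl true), x (.inl true) - x (.inl false),
      fun i => x (.inr (.inl i)) - x (.inl false), fun i => x (.inl true) - x (.inr (.inr i))⟩)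
    (fun p => Sum.elim (fun c => bif c then p.1 else p.1 - p.2.1)
      (Sum.elim (fun i => p.1 - p.2.1 + p.2.2.1 i) fun i => p.1 - p.2.2.2 i)) ?_ ?_ ?_ ?_
  · intro x hx
    simp only [A, coe_filter, Fintype.mem_piFinset, Set.mem_ofPred_eq, mono, mem_range] at hx
    simp only [mem_coe, mem_sigma, mem_range, Fintype.mem_piFinset]
    refine ⟨hx.1 _, by omega, fun i => ?_, fun i => ?_⟩
    · have := hx.2 i; omega
    · have := hx.2 i; have := (hx.2 (finRotate _ i)).1; omega
  · rintro ⟨b, s, u, d⟩ hp
    simp only [mem_coe, mem_sigma, mem_range, Fintype.mem_piFinset] at hp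
    obtain ⟨h1, h2, h3, h4⟩ := hp
    simp only [A, coe_filter, Fintype.mem_piFinset, Set.mem_ofPred_eq, mono, mem_range]
    refine ⟨?_, fun i => ?_⟩
    · rintro ((_ | _) | i | i)
      · simp only [Sum.elim_inl, cond_false]; omega
      · exact h1
      · have := h3 i
        simp only [Sum.elim_inr, Sum.elim_inl]; omega
      · simp only [Sum.elim_inr]; omega
    · have := h4 i
      simp only [Sum.elim_inr, Sum.elim_inl, cond_false, cond_true]
      omega
  · intro x hx
    simp only [A, coe_filter, Fintype.mem_piFinset, Set.mem_ofPred_eq, mono, mem_range] at hx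
    funext a
    rcases a with (_ | _) | i | i
    · have := hx.2 0
      simp only [Sum.elim_inl, cond_false]; omega
    · rfl
    · have := hx.2 i
      simp only [Sum.elim_inr, Sum.elim_inl]; omega
    · have := hx.2 i
      simp only [Sum.elim_inr]; omega
  · rintro ⟨b, s, u, d⟩ hp
    simp only [mem_coe, mem_sigma, mem_range, Fintype.mem_piFinset] at hp
    obtain ⟨h1, h2, h3, h4⟩ := hp
    simp only [Sum.elim_inr, Sum.elim_inl, cond_false, cond_true]
    have e1 : b - (b - s) = s := by omega
    have e2 : (fun i => b - s + u i - (b - s)) = u := funext fun i => by omega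
    have e3 : (fun i => b - (b - d i)) = d := funext fun i => by have := h4 i; omega
    simp only [e1, e2, e3]

theorem chk : ∀ t ∈ range 29, ∑ i ∈ range 29, num.getD i 0 * (t : ℤ) ^ i =
    den * ∑ b ∈ range (t + 1), ∑ s ∈ range (b + 1), tab.getD s 0 := by decide +kernel

open Polynomial in
theorem main : ∃ p : ℚ[X], (∀ t : ℕ, p.eval (t : ℚ) = #(A (fun a b => r a b) (range (t + 1)))) ∧
    p.coeff 1 < 0 := by
  obtain ⟨p, hd, hp⟩ := exists_poly fun a b : I => r a b
  refine ⟨p, hp, ?_⟩
  have hden : (den : ℚ) ≠ 0 := by norm_num [den]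
  have : p = ∑ i ∈ range 29, monomial i ((num.getD i 0 : ℚ) / den) := by
    refine eq_of_degrees_lt_of_eval_index_eq (range 29) (v := fun t : ℕ => (t : ℚ))
      (fun _ _ _ _ h => Nat.cast_injective h) ?_ ?_ fun t ht => ?_
    · exact degree_le_natDegree.trans_lt (by exact_mod_cast Nat.lt_succ_of_le hd)
    · refine (degree_sum_le _ _).trans_lt ((Finset.sup_lt_iff (WithBot.bot_lt_coe _)).2 fun i hi => ?_)
      exact (degree_monomial_le _ _).trans_lt (by exact_mod_cast mem_range.1 hi)
    · have h1 := chk t ht
      have h2 : ∑ b ∈ range (t + 1), ∑ s ∈ range (b + 1), tab.getD s 0 =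
          ∑ b ∈ range (t + 1), ∑ s ∈ range (b + 1), tr (s + 1) := by
        refine sum_congr rfl fun b hb => sum_congr rfl fun s hs => ?_
        rw [mem_range] at *
        have : s < 29 := by omega
        rw [← val]
        simp [List.getD_eq_getElem?_getD, this]
      rw [h2, ← card_eq] at h1
      rw [hp, eval_finsetSum]
      simp only [eval_monomial, div_mul_eq_mul_div, ← sum_div]
      rw [eq_div_iff hden, mul_comm]
      exact_mod_cast h1.symm
  rw [this, finsetSum_coeff]
  simp only [coeff_monomial, sum_ite_eq', mem_range]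
  norm_num [num, den]

end Pool.Agent.H.MP_a14af5_co
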